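import Pool.Agent.GEN.StmtsZC
import Pool.Agent.Helper28_Simp2.Zsc
import Pool.Agent.Helper73_Simp2.Zalg
import Pool.Agent.Helper7_Simp2.Ext2
import Pool.Agent.Helper40_Simp2.Zg
import Pool.Agent.Helper36_Simp2.Gcd

/-!
# Squad GEN, row SEQ: sequences
-/

set_option autoImplicit false
set_option linter.unusedVariables false
set_option linter.unusedSectionVars false

namespace Pool.Agent.GEN.H33

open PowerSeries Finset Pool.Agent.Helper6_Mono Pool.Agent.Helper30_Simp
  Pool.Agent.Helper30_Simp.H32 Pool.Agent.Helper30_Simp2 Pool.Agent.Helper30_Simp2.H63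

section

variable {σ : Type} [Fintype σ]

open scoped Classical in
theorem val_rel {M : Finset (σ →₀ ℕ)} {J : Finset σ} {y : Finset (σ →₀ ℕ) → ℤ⟦X⟧} {c : ℤ⟦X⟧}
    (h : KRelJ M X J y (X * c)) (I : Finset (σ →₀ ℕ)) (A : σ →₀ ℕ) (j : σ)
    (hv : Val M I J A j) : (1 - X) * y (insert A I) = X * (c - y I) := by
  obtain ⟨v1, v2, v3, v4, v5, v6⟩ := hv
  have hsub : insert A I ⊆ M := Finset.insert_subset v2 v1
  have hdis : Disjoint ({j} : Finset σ) J := Finset.disjoint_singleton_left.mpr v4
  have hstab : Stab (insert A I) {j} := by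
    refine ⟨Finset.singleton_nonempty j, fun α hα => ?_, fun i hi => ?_⟩
    · rw [Finset.sum_singleton]
      rcases Finset.mem_insert.1 hα with h1 | h1
      · rw [h1, v5]
      · rw [v6 α h1]; exact Nat.zero_le 1
    · rw [Finset.mem_singleton] at hi
      exact ⟨A, Finset.mem_insert_self _ _, by rw [hi, v5]⟩
  have hVK : VK (insert A I) {j} = ⊥ := by
    unfold VK
    rw [Submodule.span_eq_bot]
    rintro v ⟨i, hi, α, hα, β, hβ, h1, h2, h3⟩
    rw [Finset.mem_singleton] at hi
    rw [hi] at h1 h2
    have key : ∀ γ ∈ insert A I, γ j = 1 → γ = A := by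
      intro γ hγ h4
      rcases Finset.mem_insert.1 hγ with h5 | h5
      · exact h5
      · rw [v6 γ h5] at h4; exact absurd h4 (by norm_num)
    rw [h3, key α hα h1, key β hβ h2]
    funext i'
    simp
  have hKS : KS (insert A I) {j} := by
    refine ⟨hstab, ?_⟩
    rw [hVK, finrank_bot, Finset.card_singleton]
    exact Nat.zero_lt_one
  have h1 := h (insert A I) {j} hsub hdis hKS
  have k0 : keep (insert A I) {j} ∅ = I := by
    unfold keep
    ext α
    simp only [Finset.mem_filter, Finset.mem_insert, Finset.mem_singleton, forall_eq,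
      Finset.notMem_empty, not_false_eq_true, true_implies]
    constructor
    · rintro ⟨h2 | h2, h3⟩
      · rw [h2, v5] at h3; exact absurd h3 (by norm_num)
      · exact h2
    · intro h2
      exact ⟨Or.inr h2, v6 α h2⟩
  have k1 : keep (insert A I) {j} {j} = insert A I := by
    unfold keep
    ext α
    simp only [Finset.mem_filter, and_iff_left_iff_imp]
    intro _ i hi hi'
    exact absurd hi hi'
  have hps : ({j} : Finset σ).powerset = {∅, {j}} := by
    ext s
    rw [Finset.mem_powerset, Finset.subset_singleton_iff, Finset.mem_insert, Finset.mem_singleton]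
  rw [hps, Finset.sum_pair (Finset.singleton_ne_empty j).symm, k0, k1, Finset.card_empty,
    Finset.card_singleton] at h1
  simp only [pow_zero, one_mul, Nat.sub_zero, pow_one, Nat.sub_self, mul_one] at h1
  linear_combination h1

open scoped Classical in
theorem seqK (hzsk : ZskStmt) {M : Finset (σ →₀ ℕ)} (hM : M.Nonempty)
    {B : Set ℚ} (hB1 : 1 ∉ B) (hB : ∀ x ∈ B, KRay M x ∨ AllUB M x) (hB0 : B.Nonempty)
    (J : Finset σ)
    (c : ℤ⟦X⟧) (y1 y0 : Finset (σ →₀ ℕ) → ℤ⟦X⟧) (h1 : y1 ∅ = 0) (h0 : y0 ∅ = c)
    (hy1 : KRelJ M X J y1 (X * c)) (hy0 : KRelJ M X J y0 (X * c))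
    (D : ℤ⟦X⟧) (z1 z0 : Finset (σ →₀ ℕ) → Polynomial ℤ)
    (hz1 : ∀ I : Finset (σ →₀ ℕ), I ⊆ M → I.Nonempty → ∀ l,
      (z1 I : ℤ⟦X⟧) * cs X M I J l l = D * y1 I * gfc M I J l)
    (hz0 : ∀ I : Finset (σ →₀ ℕ), I ⊆ M → I.Nonempty → ∀ l,
      (z0 I : ℤ⟦X⟧) * cs X M I J l l = D * y0 I * gfc M I J l) :
    RQ (Polynomial.X : Polynomial ℤ) (steps ((slopes M ∪ {1}) \ B)) (fun m =>
      ∑ I ∈ M.powerset, (z1 I * cs Polynomial.X M I J m m
        + z0 I * ∑ l ∈ range m, Polynomial.X ^ (m - l) * cs Polynomial.X M I J l l)) := by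
  have key : ∀ x ∈ B, RQ (Polynomial.X : Polynomial ℤ) (steps ((slopes M ∪ {1}) \ {x})) (fun m =>
      ∑ I ∈ M.powerset, (z1 I * cs Polynomial.X M I J m m
        + z0 I * ∑ l ∈ range m, Polynomial.X ^ (m - l) * cs Polynomial.X M I J l l)) := by
    intro x hx
    have hx1 : x ≠ 1 := fun h => hB1 (h ▸ hx)
    have h2 : RQ (X : ℤ⟦X⟧) (steps ((slopes M ∪ {1}) \ {x})) (fun m =>
        ∑ I ∈ M.powerset, ∑ J' ∈ (univ : Finset σ).powerset, if I = ∅ then 0 else
          (if J' = J then y1 I else 0) * gfc M I J' m +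
            (if J' = J then y0 I else 0) * ∑ l ∈ range m, X ^ (m - l) * gfc M I J' l) := by
      rcases hB x hx with hK | hU
      · have hrel : ∀ y : Finset (σ →₀ ℕ) → ℤ⟦X⟧, KRelJ M X J y (X * c) →
            KRel M X (fun I J' => if J' = J then y I else 0)
              (fun J' => X * if J' = J then c else 0) := by
          intro y hy I J' K hI hd hKS
          by_cases h : J' = J
          · subst h
            simp only [if_true]
            exact hy I K hI hd hKS
          · simp only [if_neg h, mul_zero, Finset.sum_const_zero]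
        exact hzsk σ M hM x hx1 hK (fun J' => if J' = J then c else 0)
          (fun I J' => if J' = J then y1 I else 0) (fun I J' => if J' = J then y0 I else 0)
          (fun J' => by simp only [h1, ite_self]) (fun J' => by simp only [h0])
          (hrel y1 hy1) (hrel y0 hy0)
      · exact H28.zsc (H73.zalg H7.ext2) H40.zg σ M hM x hx1 hU (fun J' => if J' = J then c else 0)
          (fun I J' => if J' = J then y1 I else 0) (fun I J' => if J' = J then y0 I else 0)
          (fun J' => by simp only [h1, ite_self]) (fun J' => by simp only [h0])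
          (fun I J' A j hv => by
            by_cases h : J' = J
            · subst h
              simp only [if_true]
              exact val_rel hy1 I A j hv
            · simp only [if_neg h]
              ring)
          (fun I J' A j hv => by
            by_cases h : J' = J
            · subst h
              simp only [if_true]
              exact val_rel hy0 I A j hv
            · simp only [if_neg h]
              ring)
    refine RQ_of_inj (Polynomial.coeToPowerSeries.ringHom)
      (fun p q h => Polynomial.coe_injective ℤ (by simpa using h)) (RQ_smul D h2) (by simp)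
      fun m => ?_
    rw [map_sum, Finset.mul_sum]
    refine Finset.sum_congr rfl fun I hIM => ?_
    have hIM' : I ⊆ M := Finset.mem_powerset.1 hIM
    rw [Finset.sum_eq_single J]
    rotate_left
    · intro J' _ hJ'
      simp only [if_neg hJ', zero_mul, add_zero, ite_self]
    · intro h
      exact absurd (Finset.mem_powerset.2 (Finset.subset_univ J)) h
    have hcs : ∀ l, (Polynomial.coeToPowerSeries.ringHom : Polynomial ℤ →+* ℤ⟦X⟧)
        (cs Polynomial.X M I J l l) = cs X M I J l l := by
      intro l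
      rw [cs_map]
      simp
    rw [map_add, map_mul, map_mul, map_sum, hcs]
    have hsum : ∑ l ∈ range m, (Polynomial.coeToPowerSeries.ringHom : Polynomial ℤ →+* ℤ⟦X⟧)
        (Polynomial.X ^ (m - l) * cs Polynomial.X M I J l l)
        = ∑ l ∈ range m, X ^ (m - l) * cs X M I J l l := by
      refine Finset.sum_congr rfl fun l _ => ?_
      rw [map_mul, map_pow, hcs]
      simp
    rw [hsum]
    by_cases hI : I = ∅
    · have h3 : ∀ l, cs (X : ℤ⟦X⟧) M I J l l = 0 := by
        intro l
        unfold cs
        refine Finset.sum_eq_zero fun u _ => ?_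
        rw [if_neg]
        intro h
        exact absurd h.ne (by rw [hI]; simp)
      simp only [if_pos hI, h3, mul_zero, Finset.sum_const_zero, add_zero]
    · have hI' := Finset.nonempty_iff_ne_empty.2 hI
      simp only [if_neg hI, if_true]
      have e1 := hz1 I hIM' hI' m
      have e0 : (z0 I : ℤ⟦X⟧) * ∑ l ∈ range m, X ^ (m - l) * cs X M I J l l
          = D * y0 I * ∑ l ∈ range m, X ^ (m - l) * gfc M I J l := by
        rw [Finset.mul_sum, Finset.mul_sum]
        refine Finset.sum_congr rfl fun l _ => ?_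
        rw [mul_left_comm, hz0 I hIM' hI' l]
        ring
      have e2 : (Polynomial.coeToPowerSeries.ringHom : Polynomial ℤ →+* ℤ⟦X⟧) (z1 I) = z1 I := rfl
      have e3 : (Polynomial.coeToPowerSeries.ringHom : Polynomial ℤ →+* ℤ⟦X⟧) (z0 I) = z0 I := rfl
      rw [e2, e3, e1, e0]
      ring
  obtain ⟨x₀, hx₀⟩ := hB0
  refine H36.gcd _ B _ ?_ key
  have hmono : ∀ {P Q : Set (ℕ × ℕ)} {a : ℕ → Polynomial ℤ}, P ⊆ Q → RQ Polynomial.X P a →
      RQ Polynomial.X Q a := by
    intro P Q a hPQ h
    induction h with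
    | fin a N h => exact .fin _ N h
    | step a u v huv _ ih => exact .step _ u v (hPQ huv) ih
  refine hmono ?_ (key x₀ hx₀)
  intro p hp
  exact ⟨hp.1, hp.2.1⟩

end

theorem seq (h : ZskStmt) : SeqStmt := by
  intro σ _ M hM B hB1 hB hB0 R _ L J c y1 y0 h1 h0 hy1 hy0 D z1 z0 hz1 hz0
  have h2 := RQ_map (evL L) (seqK h hM hB1 hB hB0 J c y1 y0 h1 h0 hy1 hy0 D z1 z0 hz1 hz0)
  refine (RQ_toRP L (evL_X L) h2).congr fun m => ?_
  rw [map_sum]
  refine Finset.sum_congr rfl fun I _ => ?_
  rw [map_add, map_mul, map_mul, map_sum, cs_map, evL_X]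
  congr 2
  refine Finset.sum_congr rfl fun l _ => ?_
  rw [map_mul, map_pow, cs_map, evL_X]

end Pool.Agent.GEN.H33
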